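import Mathlib
import Pool.Agent.Lib.helper28.BerC

open MeasureTheory

namespace Pool.Agent.Results.MP_5b3867_an.No

/-- A positive locally integrable function on the unit disc. -/
def IsWeight (w : ℂ → ℝ) : Prop :=
  (∀ z ∈ Metric.ball (0:ℂ) 1, 0 < w z) ∧ LocallyIntegrableOn w (Metric.ball (0:ℂ) 1) volume

/-- The operator with kernel `1 / K` maps `f` to the image of `σ f` boundedly between the
weighted spaces, tested on bounded functions with compact support in the disc. -/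
def Bdd (K : ℂ → ℂ → ℂ) (w σ : ℂ → ℝ) : Prop :=
  ∃ C : NNReal, ∀ f : ℂ → ℂ, Measurable f → (∃ M : ℝ, ∀ z, ‖f z‖ ≤ M) →
    (∃ s : ℝ, s < 1 ∧ ∀ z : ℂ, s < ‖z‖ → f z = 0) →
    ∫⁻ z in Metric.ball (0:ℂ) 1,
        ‖∫ ζ in Metric.ball (0:ℂ) 1, f ζ * (σ ζ : ℂ) / K z ζ‖ₑ ^ 2 * ENNReal.ofReal (w z)
      ≤ (C : ENNReal) * ∫⁻ ζ in Metric.ball (0:ℂ) 1, ‖f ζ‖ₑ ^ 2 * ENNReal.ofReal (σ ζ)

theorem result : ∃ w σ : ℂ → ℝ, IsWeight w ∧ IsWeight σ ∧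
    Bdd (fun z ζ => (1 - z * starRingEnd ℂ ζ) ^ 2) w σ ∧
    ¬ Bdd (fun z ζ => ((‖1 - z * starRingEnd ℂ ζ‖ ^ 2 : ℝ) : ℂ)) w σ := by
  obtain ⟨N, hN⟩ := H28Ber.unbdd
  exact ⟨H28Ber.w, H28Ber.sg N,
    ⟨fun z hz => H28Ber.w_pos hz, H28Ber.w_cont.locallyIntegrableOn measurableSet_ball⟩,
    ⟨fun z hz => H28Ber.sg_pos N hz, (H28Ber.sg_cont N).locallyIntegrableOn measurableSet_ball⟩,
    ⟨40, H28Ber.bdd N⟩, hN⟩

end Pool.Agent.Results.MP_5b3867_an.No
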